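import Mathlib
import Pool.Agent.H.MP_a3b474_co.Defs
import Pool.Agent.H.MP_a3b474_co.Tight

set_option autoImplicit false

namespace Pool.Agent.Results.MP_a3b474_co.Near

open Finset Pool.Agent.H.MP_a3b474_co

lemma bound (n q : ℕ) (h : 2 * ((2 * q + 1) * 3 ^ (2 * n)) ≤ 3 * 3 ^ q + 6 * q + 3) :
    ∃ t : Strat (3 ^ (2 * n)), Valid t ∧ depth t ≤ q + 3 ∧ ∀ c k, Wins c k t :=
  let ⟨t, h1, h2, h3⟩ := main (N := 3 ^ (2 * n)) q 0 1 2 (by decide) (by decide) (by decide)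
    univ ∅ ∅ (by simp) (by simp) (by simp) (by simpa using h)
  ⟨t, h1, h2, fun c k => h3 c k (.inl (mem_univ _))⟩

lemma part1 (n : ℕ) :
    (∃ t : Strat (3 ^ (2 * n)), Valid t ∧ depth t ≤ w n ∧ ∀ c k, Wins c k t) ∧
    3 ^ (2 * n) * (2 * L n + 1) ≤ 3 ^ L n ∧ L n ≤ w n ∧ w n ≤ L n + 3 ∧
    (6 ≤ n → w n < 3 * n + 1) := by
  have p : ∀ m, 2 * (6 * (m + 6) - 5) ≤ 3 ^ (m + 4) := fun m => by
    induction m with
    | zero => norm_num
    | succ m ih => rw [show m + 1 + 4 = m + 4 + 1 from rfl, pow_succ]; omega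
  have b : ∀ q, 2 * ((2 * q + 1) * 3 ^ (2 * n)) ≤ 3 ^ (q + 1) → w n ≤ q + 3 := fun q h =>
    Nat.sInf_le (bound n q (by omega))
  have l : 3 ^ (2 * n) * (2 * L n + 1) ≤ 3 ^ L n := by
    refine Nat.sInf_mem (s := {q | 3 ^ (2 * n) * (2 * q + 1) ≤ 3 ^ q}) ⟨3 * n + 4, ?_⟩
    rw [Set.mem_ofPred_eq, show 3 * n + 4 = 2 * n + (n + 4) by ring, pow_add]
    have := p n
    exact Nat.mul_le_mul_left _ (by omega)
  have a : ∃ t : Strat (3 ^ (2 * n)), Valid t ∧ depth t ≤ w n ∧ ∀ c k, Wins c k t :=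
    Nat.sInf_mem (s := {q | ∃ t : Strat (3 ^ (2 * n)), Valid t ∧ depth t ≤ q ∧
      ∀ c k, Wins c k t}) ⟨_, bound n (L n) (by rw [mul_comm] at l; omega)⟩
  refine ⟨a, l, ?_, b _ (by rw [mul_comm] at l; omega), fun h => ?_⟩
  · obtain ⟨t, -, h2, h3⟩ := a
    have := lower t _ h2 univ univ (fun c _ => h3 c) (fun c _ => ⟨0, h3 c 0⟩) subset_rfl
    rw [card_univ, Fintype.card_fin] at this
    exact Nat.sInf_le (by rw [Set.mem_ofPred_eq, mul_comm, add_one_mul]; exact this)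
  obtain ⟨m, rfl⟩ : ∃ m, n = m + 6 := ⟨n - 6, by omega⟩
  refine lt_of_le_of_lt (b (3 * m + 15) ?_) (by omega)
  rw [show 3 * m + 15 + 1 = m + 4 + 2 * (m + 6) by ring, pow_add _ (m + 4), ← mul_assoc]
  have := p m
  exact Nat.mul_le_mul_right _ (by omega)

lemma ar (K c q r N U P X : ℕ) (hK : 2 * (K + 1) ≤ U) (hc : 4 * K * c ≤ r) (hq : q ≤ r)
    (hP : P = U * X) (h0 : 0 < K) (h : (K + 1) * (N * (2 * r + 1)) ≤ K * P) :
    2 * (c + q) * N + X ≤ P := by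
  have h1 : 2 * (K + 1) * X ≤ P := hP ▸ Nat.mul_le_mul_right _ hK
  have h2 : 2 * K * (2 * (c + q) * N) ≤ (2 * K + 1) * (N * (2 * r + 1)) := by
    have : 2 * K * (2 * (c + q)) ≤ (2 * K + 1) * (2 * r + 1) := by
      nlinarith [Nat.mul_le_mul_left K hq]
    nlinarith [Nat.mul_le_mul_left N this]
  refine Nat.le_of_mul_le_mul_left (c := 2 * K * (K + 1)) ?_ (by positivity)
  nlinarith [Nat.mul_le_mul_left (K + 1) h2, Nat.mul_le_mul_left (2 * K + 1) h,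
    Nat.mul_le_mul_left K h1]

lemma part2 (K : ℕ) (h0 : 0 < K) : ∃ n₀, ∀ n, n₀ ≤ n → ∀ q,
    (K + 1) * (3 ^ (2 * n) * (2 * q + 1)) ≤ K * 3 ^ q → w n ≤ q := by
  obtain ⟨m, hm⟩ : ∃ m, 2 * (K + 1) ≤ 3 ^ m := ⟨_, (Nat.lt_pow_self (by omega)).le⟩
  refine ⟨4 * K * ((2 * m + 6) * 81 * 3 ^ (m + 1)) + (3 * m + 10), fun n hn r h => ?_⟩
  have h1 : 2 * n ≤ r := by
    refine (Nat.pow_le_pow_iff_right (a := 3) (by omega)).1 (Nat.le_of_mul_le_mul_left ?_ h0)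
    exact le_trans (Nat.mul_le_mul (by omega) (Nat.le_mul_of_pos_right _ (by omega))) h
  obtain ⟨q, rfl⟩ : ∃ q, r = q + (3 * m + 10) := ⟨r - (3 * m + 10), by omega⟩
  have := ar K _ q _ _ _ _ (9 * (3 ^ (2 * m + 8) * 3 ^ q)) hm
    (le_trans (le_trans (Nat.le_add_right _ _) hn) (by omega)) (Nat.le_add_right _ _) (by ring) h0 h
  obtain ⟨t, h1, h2, h3⟩ := tight (N := 3 ^ (2 * n)) m q 0 1 2 (by decide) (by decide) (by decide)
    univ ∅ ∅ (by simp) (by simp) (by simp)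
    (by simpa only [card_univ, Fintype.card_fin, card_empty, add_zero] using
      this.trans (Nat.le_add_right _ _))
  exact Nat.sInf_le ⟨t, h1, h2, fun c k => h3 c k (.inl (mem_univ _))⟩

lemma part3 (K : ℕ) (h0 : 0 < K) : ∃ C, ∀ X, K * #{n ∈ range X | w n ≠ L n} ≤ 96 * X + C := by
  obtain ⟨n₀, h⟩ := part2 K h0
  refine ⟨K * n₀ + K * K + 120, fun X => ?_⟩
  set S := fun e => {n ∈ range X | 4 * n + 2 * e + 1 ≤ 3 ^ e ∧
    K * 3 ^ e < (K + 1) * (4 * n + 2 * e + 1)} with hS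
  set E := Nat.log 3 (16 * X + 20) + 1 with hE
  have s1 : {n ∈ range X | w n ≠ L n} ⊆ range n₀ ∪ (range E).biUnion S := by
    intro n hn
    rw [mem_filter] at hn
    rw [mem_union, mem_range, mem_biUnion, or_iff_not_imp_left, not_lt]
    intro h1
    obtain ⟨-, h2, h3, -⟩ := part1 n
    have h4 := not_le.1 (mt (h n h1 (L n)) (by omega))
    have h5 : 2 * n ≤ L n := (Nat.pow_le_pow_iff_right (a := 3) (by omega)).1
      (le_trans (Nat.le_mul_of_pos_right _ (by omega)) h2)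
    obtain ⟨e, he⟩ := Nat.exists_eq_add_of_le h5
    rw [he, pow_add] at h2 h4
    rw [mul_left_comm, mul_left_comm (K + 1)] at h4
    have h6 := Nat.le_of_mul_le_mul_left h2 (by positivity)
    have h7 := Nat.lt_of_mul_lt_mul_left h4
    rw [show 2 * (2 * n + e) + 1 = 4 * n + 2 * e + 1 by ring] at h6 h7
    refine ⟨e, mem_range.2 (Nat.lt_succ_of_le (Nat.le_log_of_pow_le (by omega) ?_)),
      mem_filter.2 ⟨hn.1, h6, h7⟩⟩
    have h8 : ∀ e, 8 * e ≤ 3 ^ e + 16 := fun e => by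
      induction e with
      | zero => omega
      | succ e ih => have := Nat.lt_pow_self (n := e) (show 1 < 3 by omega); omega
    have h9 : 3 ^ e < 2 * (4 * n + 2 * e + 1) := by
      refine Nat.lt_of_mul_lt_mul_left (a := K) (h7.trans_le ?_)
      rw [← mul_assoc]
      exact Nat.mul_le_mul_right _ (by omega)
    have := h8 e
    have := mem_range.1 hn.1
    omega
  have s2 : ∀ e, K * #(S e) ≤ 2 * 3 ^ e + if e < K then K else 0 := by
    intro e
    have : #(S e) ≤ #(Ioc (K * 3 ^ e / (K + 1)) (3 ^ e)) := by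
      refine card_le_card_of_injOn (fun n => 4 * n + 2 * e + 1) (fun n hn => ?_)
        fun a _ b _ h => by simp only at h; omega
      have := (mem_filter.1 hn).2
      exact mem_Ioc.2 ⟨(Nat.div_lt_iff_lt_mul (by omega)).2 (mul_comm (K + 1) _ ▸ this.2), this.1⟩
    rw [Nat.card_Ioc] at this
    have a := Nat.div_add_mod (K * 3 ^ e) (K + 1)
    have b := Nat.mod_lt (K * 3 ^ e) (show 0 < K + 1 by omega)
    have c := Nat.lt_pow_self (n := e) (show 1 < 3 by omega)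
    have d : K * #(S e) ≤ 3 ^ e + K := by
      generalize K * 3 ^ e / (K + 1) = y at a this
      obtain ⟨z, hz⟩ : ∃ z, 3 ^ e = y + z := ⟨3 ^ e - y, by
        have : (K + 1) * y ≤ (K + 1) * 3 ^ e :=
          ((Nat.le_add_right _ _).trans a.le).trans (Nat.mul_le_mul_right _ (Nat.le_succ K))
        have := Nat.le_of_mul_le_mul_left this (by omega)
        omega⟩
      rw [hz, Nat.add_sub_cancel_left] at this
      nlinarith [Nat.mul_le_mul_left K this]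
    split_ifs <;> omega
  have s3 : ∑ e ∈ range E, 3 ^ e ≤ 3 * (16 * X + 20) := by
    refine (Nat.geomSum_lt (by omega) fun k hk => mem_range.1 hk).le.trans ?_
    rw [hE, pow_succ, mul_comm]
    exact Nat.mul_le_mul_left _ (Nat.pow_log_le_self _ (by omega))
  have s4 : ∑ e ∈ range E, (if e < K then K else 0) ≤ K * K := by
    rw [← sum_filter, sum_const, smul_eq_mul]
    refine Nat.mul_le_mul_right _ ((card_le_card fun e he => ?_).trans_eq (card_range K))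
    exact mem_range.2 (mem_filter.1 he).2
  have s5 := Nat.mul_le_mul_left K (((card_le_card s1).trans (card_union_le _ _)).trans
    (Nat.add_le_add_left card_biUnion_le _))
  rw [mul_add, mul_sum, card_range] at s5
  have s6 := sum_le_sum (s := range E) fun e _ => s2 e
  rw [sum_add_distrib, ← mul_sum _ _ 2] at s6
  omega

theorem result :
    (∀ n : ℕ, (∃ t : Strat (3 ^ (2 * n)), Valid t ∧ depth t ≤ w n ∧ ∀ c k, Wins c k t) ∧
      3 ^ (2 * n) * (2 * L n + 1) ≤ 3 ^ L n ∧ L n ≤ w n ∧ w n ≤ L n + 3 ∧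
      (6 ≤ n → w n < 3 * n + 1)) ∧
    (∀ ε : ℝ, 0 < ε → ∃ n₀ : ℕ, ∀ n, n₀ ≤ n → ∀ q : ℕ,
      (1 + ε) * (3 ^ (2 * n) * (2 * q + 1)) ≤ 3 ^ q → w n ≤ q) ∧
    (∃ n₀ : ℕ, ∀ n, n₀ ≤ n → w n ≤ L n + 1) ∧
    ∀ δ : ℝ, 0 < δ → ∃ X₀ : ℕ, ∀ X, X₀ ≤ X →
      (((range X).filter fun n => w n ≠ L n).card : ℝ) ≤ δ * X := by
  refine ⟨part1, fun ε hε => ?_, ?_, fun δ hδ => ?_⟩
  · obtain ⟨K, hK⟩ := exists_nat_gt (1 / ε)
    have K0 : (0 : ℝ) < K := lt_trans (by positivity) hK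
    obtain ⟨n₀, h⟩ := part2 K (by exact_mod_cast K0)
    refine ⟨n₀, fun n hn q hq => h n hn q ?_⟩
    rw [div_lt_iff₀ hε] at hK
    have : ((K : ℝ) + 1) * (3 ^ (2 * n) * (2 * q + 1)) ≤ K * 3 ^ q := by
      refine le_trans ?_ (mul_le_mul_of_nonneg_left hq K0.le)
      rw [← mul_assoc (K : ℝ)]
      exact mul_le_mul_of_nonneg_right (by nlinarith) (by positivity)
    exact_mod_cast this
  · obtain ⟨n₀, h⟩ := part2 1 one_pos
    refine ⟨n₀ + 1, fun n hn => h n (by omega) _ ?_⟩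
    obtain ⟨-, h2, -⟩ := part1 n
    have h5 : 2 * n ≤ L n := (Nat.pow_le_pow_iff_right (a := 3) (by omega)).1
      (le_trans (Nat.le_mul_of_pos_right _ (by omega)) h2)
    have : 3 ^ (2 * n) * (2 * (2 * (L n + 1) + 1)) ≤ 3 ^ (2 * n) * (3 * (2 * L n + 1)) :=
      Nat.mul_le_mul_left _ (by omega)
    rw [pow_succ 3 (L n)]
    nlinarith
  · obtain ⟨K, hK⟩ := exists_nat_gt (97 / δ)
    have K0 : (0 : ℝ) < K := lt_trans (by positivity) hK
    obtain ⟨C, h⟩ := part3 K (by exact_mod_cast K0)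
    refine ⟨C, fun X hX => le_of_mul_le_mul_left ?_ K0⟩
    have h1 : (K : ℝ) * #{n ∈ range X | w n ≠ L n} ≤ 96 * X + C := by exact_mod_cast h X
    have h2 : (C : ℝ) ≤ X := by exact_mod_cast hX
    rw [div_lt_iff₀ hδ] at hK
    nlinarith [mul_le_mul_of_nonneg_right hK.le (Nat.cast_nonneg (α := ℝ) X)]

end Pool.Agent.Results.MP_a3b474_co.Near
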